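import Mathlib

/-! Elementary counting lemmas. -/

namespace Pool.Agent.H26CC

open Finset

/-- The integers of absolute value at most `A`. -/
noncomputable def bz (A : ℕ) : Finset ℤ := Finset.Icc (-(A : ℤ)) A

theorem card_bz (A : ℕ) : (bz A).card = 2 * A + 1 := by
  unfold bz
  rw [Int.card_Icc]
  omega

theorem mem_bz {A : ℕ} {x : ℤ} : x ∈ bz A ↔ |x| ≤ A := by
  unfold bz
  rw [mem_Icc, ← abs_le]

/-- A count of integers in a progression and an interval. -/
theorem ap_count (S : Finset ℤ) (g h M B : ℕ) (hg : 1 ≤ g) (hh : 1 ≤ h) (hM : 1 ≤ M)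
    (hMB : M ≤ h * B)
    (hS : ∀ x ∈ S, ∀ y ∈ S, (g : ℤ) ∣ h * (x - y) ∧ |x - y| * M ≤ 2 * g * B) :
    S.card * M ≤ 5 * h * B := by
  rcases S.eq_empty_or_nonempty with h0 | ⟨x0, hx0⟩
  · rw [h0]
    simp
  have hgZ : (0 : ℤ) < g := by exact_mod_cast hg
  have hhZ : (0 : ℤ) < h := by exact_mod_cast hh
  have hMZ : (0 : ℤ) < M := by exact_mod_cast hM
  have h1 : S.card ≤ (bz (2 * h * B / M)).card := by
    apply Finset.card_le_card_of_injOn (fun x => h * (x - x0) / g)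
    · intro x hx
      rw [mem_coe] at hx
      obtain ⟨⟨z, hz⟩, hb⟩ := hS x hx x0 hx0
      rw [mem_coe, mem_bz]
      simp only
      rw [hz, Int.mul_ediv_cancel_left _ hgZ.ne']
      have h2 : |z| * M * g ≤ 2 * h * B * g := by
        have h3 : (g : ℤ) * |z| = h * |x - x0| := by
          have e := congrArg abs hz
          rw [abs_mul, abs_mul, abs_of_pos hhZ, abs_of_pos hgZ] at e
          exact e.symm
        calc |z| * M * g = ((g : ℤ) * |z|) * M := by ring
          _ = h * (|x - x0| * M) := by rw [h3]; ring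
          _ ≤ h * (2 * g * B) := by gcongr
          _ = 2 * h * B * g := by ring
      have h4 : |z| * M ≤ 2 * h * B := le_of_mul_le_mul_right h2 hgZ
      have h5 : |z| ≤ (2 * h * B : ℤ) / M := (Int.le_ediv_iff_mul_le hMZ).2 h4
      push_cast
      exact h5
    · intro x hx y hy hxy
      rw [mem_coe] at hx hy
      obtain ⟨⟨z, hz⟩, -⟩ := hS x hx x0 hx0
      obtain ⟨⟨w, hw⟩, -⟩ := hS y hy x0 hx0
      simp only at hxy
      rw [hz, hw, Int.mul_ediv_cancel_left _ hgZ.ne', Int.mul_ediv_cancel_left _ hgZ.ne'] at hxy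
      rw [hxy, ← hw] at hz
      have := mul_left_cancel₀ hhZ.ne' hz
      linarith
  rw [card_bz] at h1
  calc S.card * M ≤ (2 * (2 * h * B / M) + 1) * M := Nat.mul_le_mul_right _ h1
    _ = 2 * (2 * h * B / M * M) + M := by ring
    _ ≤ 2 * (2 * h * B) + h * B := by
        have := Nat.div_mul_le_self (2 * h * B) M
        omega
    _ = 5 * h * B := by ring

/-- The sum of the greatest common divisors. -/
theorem gsum (h m : ℕ) (hh : 1 ≤ h) (hm : h ≤ m) :
    ∑ z ∈ bz m, Int.gcd h z ≤ 3 * m * h.divisors.card := by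
  have h1 : ∀ z ∈ bz m, Int.gcd h z ≤ ∑ k ∈ h.divisors, if (k : ℤ) ∣ z then k else 0 := by
    intro z _
    have h2 : Int.gcd h z ∈ h.divisors := by
      rw [Nat.mem_divisors]
      refine ⟨?_, by omega⟩
      have := Int.gcd_dvd_left (a := (h : ℤ)) (b := z)
      exact_mod_cast this
    have h3 : (if ((Int.gcd h z : ℕ) : ℤ) ∣ z then Int.gcd h z else 0) = Int.gcd h z := by
      rw [if_pos (Int.gcd_dvd_right ..)]
    calc Int.gcd h z = (if ((Int.gcd h z : ℕ) : ℤ) ∣ z then Int.gcd h z else 0) := h3.symm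
      _ ≤ _ := Finset.single_le_sum (f := fun k : ℕ => if (k : ℤ) ∣ z then k else 0)
          (fun _ _ => Nat.zero_le _) h2
  refine (Finset.sum_le_sum h1).trans ?_
  rw [Finset.sum_comm]
  have h2 : ∀ k ∈ h.divisors, ∑ z ∈ bz m, (if (k : ℤ) ∣ z then k else 0) ≤ 3 * m := by
    intro k hk
    rw [Nat.mem_divisors] at hk
    have hk0 : 0 < k := Nat.pos_of_dvd_of_pos hk.1 (by omega)
    have hkm : k ≤ m := (Nat.le_of_dvd (by omega) hk.1).trans hm
    have hkZ : (0 : ℤ) < k := by exact_mod_cast hk0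
    rw [← Finset.sum_filter, Finset.sum_const, smul_eq_mul]
    have h3 : ((bz m).filter fun z => (k : ℤ) ∣ z).card ≤ (bz (m / k)).card := by
      apply Finset.card_le_card_of_injOn (fun z : ℤ => z / (k : ℤ))
      · intro z hz
        rw [mem_coe, mem_filter, mem_bz] at hz
        obtain ⟨hz, w, rfl⟩ := hz
        rw [mem_coe, mem_bz]
        simp only
        rw [Int.mul_ediv_cancel_left _ hkZ.ne']
        rw [abs_mul, abs_of_pos hkZ] at hz
        push_cast
        rw [Int.le_ediv_iff_mul_le hkZ]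
        linarith
      · intro z hz w hw hzw
        rw [mem_coe, mem_filter] at hz hw
        obtain ⟨-, a, rfl⟩ := hz
        obtain ⟨-, b, rfl⟩ := hw
        simp only at hzw
        rw [Int.mul_ediv_cancel_left _ hkZ.ne', Int.mul_ediv_cancel_left _ hkZ.ne'] at hzw
        rw [hzw]
    rw [card_bz] at h3
    calc ((bz m).filter fun z => (k : ℤ) ∣ z).card * k ≤ (2 * (m / k) + 1) * k :=
          Nat.mul_le_mul_right _ h3
      _ = 2 * (m / k * k) + k := by ring
      _ ≤ 2 * m + m := by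
          have := Nat.div_mul_le_self m k
          omega
      _ = 3 * m := by ring
  calc ∑ k ∈ h.divisors, ∑ z ∈ bz m, (if (k : ℤ) ∣ z then k else 0)
      ≤ ∑ k ∈ h.divisors, 3 * m := Finset.sum_le_sum h2
    _ = 3 * m * h.divisors.card := by rw [Finset.sum_const, smul_eq_mul, mul_comm]

theorem gcd_bound {g : ℕ} {x y w : ℤ} (h1 : (g : ℤ) ∣ x * w) (h2 : (g : ℤ) ∣ y * w) :
    (g : ℤ) ∣ (Int.gcd x y : ℕ) * w := by
  have h3 : ((Int.gcd x y : ℕ) : ℤ) = x * Int.gcdA x y + y * Int.gcdB x y := Int.gcd_eq_gcd_ab x y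
  rw [h3]
  have : (x * Int.gcdA x y + y * Int.gcdB x y) * w = (x * w) * Int.gcdA x y + (y * w) * Int.gcdB x y := by ring
  rw [this]
  exact dvd_add (Dvd.dvd.mul_right h1 _) (Dvd.dvd.mul_right h2 _)

open Classical in
/-- The number of triples. -/
theorem cnt3 (S : Finset (ℤ × ℤ × ℤ)) (A B g : ℕ) (x y z : ℤ) (hA : 1 ≤ A) (hx : x ≠ 0)
    (hxB : x.natAbs ≤ B) (hg : 1 ≤ g)
    (h1 : ∀ s ∈ S, |s.1| ≤ A)
    (h2 : ∀ s ∈ S, ∀ t ∈ S, s.1 = t.1 → (g : ℤ) ∣ x * (s.2.1 - t.2.1) ∧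
      (g : ℤ) ∣ y * (s.2.1 - t.2.1) ∧ |x * (s.2.1 - t.2.1)| ≤ 2 * g * B)
    (h3 : ∀ s ∈ S, ∀ t ∈ S, s.1 = t.1 → s.2.1 = t.2.1 → (g : ℤ) ∣ x * (s.2.2 - t.2.2) ∧
      (g : ℤ) ∣ y * (s.2.2 - t.2.2) ∧ (g : ℤ) ∣ z * (s.2.2 - t.2.2) ∧
      |x * (s.2.2 - t.2.2)| ≤ 2 * g * B) :
    S.card * x.natAbs ^ 2 ≤
      75 * A * B ^ 2 * (Int.gcd x y * Int.gcd (Int.gcd x y : ℕ) z) := by
  set X := x.natAbs with hX
  have hX1 : 1 ≤ X := by
    have := Int.natAbs_pos.2 hx
    omega
  have hXx : (X : ℤ) = |x| := by rw [hX, Int.abs_eq_natAbs]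
  set G2 := Int.gcd x y with hG2
  set G3 := Int.gcd (G2 : ℕ) z with hG3
  have hG2p : 1 ≤ G2 := Int.gcd_pos_of_ne_zero_left _ hx
  have hG3p : 1 ≤ G3 := Int.gcd_pos_of_ne_zero_left _ (by exact_mod_cast (show G2 ≠ 0 by omega))
  have key : ∀ i ∈ bz A, (S.filter fun s => s.1 = i).card * X ^ 2 ≤ 25 * B ^ 2 * (G2 * G3) := by
    intro i _
    set T := S.filter fun s => s.1 = i with hT
    set J := T.image fun s => s.2.1 with hJ
    have hJc : J.card * X ≤ 5 * G2 * B := by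
      apply ap_count J g G2 X B hg hG2p hX1 (hxB.trans (Nat.le_mul_of_pos_left _ hG2p))
      intro u hu v hv
      rw [hJ, mem_image] at hu hv
      obtain ⟨s, hs, rfl⟩ := hu
      obtain ⟨t, ht, rfl⟩ := hv
      rw [hT, mem_filter] at hs ht
      obtain ⟨a1, a2, a3⟩ := h2 s hs.1 t ht.1 (hs.2.trans ht.2.symm)
      refine ⟨gcd_bound a1 a2, ?_⟩
      rw [hXx, mul_comm, ← abs_mul]
      exact a3
    have hfib : ∀ j ∈ J, (T.filter fun s => s.2.1 = j).card * X ≤ 5 * G3 * B := by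
      intro j _
      have hc : (T.filter fun s => s.2.1 = j).card =
          ((T.filter fun s => s.2.1 = j).image fun s => s.2.2).card := by
        rw [Finset.card_image_of_injOn]
        intro s hs t ht hst
        rw [mem_coe, mem_filter, hT, mem_filter] at hs ht
        simp only at hst
        exact Prod.ext (hs.1.2.trans ht.1.2.symm) (Prod.ext (hs.2.trans ht.2.symm) hst)
      rw [hc]
      apply ap_count _ g G3 X B hg hG3p hX1 (hxB.trans (Nat.le_mul_of_pos_left _ hG3p))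
      intro u hu v hv
      rw [mem_image] at hu hv
      obtain ⟨s, hs, rfl⟩ := hu
      obtain ⟨t, ht, rfl⟩ := hv
      rw [mem_filter, hT, mem_filter] at hs ht
      obtain ⟨a1, a2, a3, a4⟩ := h3 s hs.1.1 t ht.1.1 (hs.1.2.trans ht.1.2.symm)
        (hs.2.trans ht.2.symm)
      refine ⟨gcd_bound (gcd_bound a1 a2) a3, ?_⟩
      rw [hXx, mul_comm, ← abs_mul]
      exact a4
    have h4 : T.card = ∑ j ∈ J, (T.filter fun s => s.2.1 = j).card :=
      Finset.card_eq_sum_card_image _ _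
    calc T.card * X ^ 2 = (∑ j ∈ J, (T.filter fun s => s.2.1 = j).card * X) * X := by
          rw [h4, ← Finset.sum_mul]
          ring
      _ ≤ (∑ j ∈ J, 5 * G3 * B) * X := Nat.mul_le_mul_right _ (Finset.sum_le_sum hfib)
      _ = (J.card * X) * (5 * G3 * B) := by rw [Finset.sum_const, smul_eq_mul]; ring
      _ ≤ (5 * G2 * B) * (5 * G3 * B) := Nat.mul_le_mul_right _ hJc
      _ = 25 * B ^ 2 * (G2 * G3) := by ring
  have h5 : S.card = ∑ i ∈ bz A, (S.filter fun s => s.1 = i).card :=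
    Finset.card_eq_sum_card_fiberwise fun s hs => by
      rw [mem_coe, mem_bz]
      exact h1 s hs
  calc S.card * X ^ 2 = ∑ i ∈ bz A, (S.filter fun s => s.1 = i).card * X ^ 2 := by
        rw [h5, Finset.sum_mul]
    _ ≤ ∑ i ∈ bz A, 25 * B ^ 2 * (G2 * G3) := Finset.sum_le_sum key
    _ = (2 * A + 1) * (25 * B ^ 2 * (G2 * G3)) := by
        rw [Finset.sum_const, smul_eq_mul, card_bz]
    _ ≤ (3 * A) * (25 * B ^ 2 * (G2 * G3)) := Nat.mul_le_mul_right _ (by omega)
    _ = _ := by ring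

open Classical in
/-- The number of sextuples. -/
theorem sumM (A B τ : ℕ) (hA : 1 ≤ A) (hAB : A ≤ B)
    (hτ : ∀ n : ℕ, 1 ≤ n → n ≤ 2 * A ^ 2 → n.divisors.card ≤ τ)
    (N : ℤ → ℤ → ℤ → ℤ) (D : ℕ → ℤ × ℤ × ℤ × ℤ × ℤ × ℤ → Prop)
    (S : Finset (ℤ × ℤ × ℤ × ℤ × ℤ × ℤ))
    (hS : ∀ x y z i j a, (x, y, z, i, j, a) ∈ S → |x| ≤ A ∧ x ≠ 0 ∧ |y| ≤ |x| ∧ |z| ≤ |x| ∧
      |i| ≤ A ∧ N x y z ≠ 0 ∧ |N x y z| ≤ 2 * A ^ 2 ∧
      ∃ g : ℕ, (g : ℤ) ∣ N x y z ∧ D g (x, y, z, i, j, a))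
    (hD1 : ∀ g x y z i j a j' a', D g (x, y, z, i, j, a) → D g (x, y, z, i, j', a') →
      (g : ℤ) ∣ x * (j - j') ∧ (g : ℤ) ∣ y * (j - j') ∧ |x * (j - j')| ≤ 2 * g * B)
    (hD2 : ∀ g x y z i j a a', D g (x, y, z, i, j, a) → D g (x, y, z, i, j, a') →
      (g : ℤ) ∣ x * (a - a') ∧ (g : ℤ) ∣ y * (a - a') ∧ (g : ℤ) ∣ z * (a - a') ∧
      |x * (a - a')| ≤ 2 * g * B) :
    S.card ≤ 1350 * τ ^ 3 * A ^ 2 * B ^ 2 := by
  set K := (bz A).erase 0 with hK
  have hKc : K.card = 2 * A := by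
    rw [hK, Finset.card_erase_of_mem (by rw [mem_bz]; simp), card_bz]
    omega
  have key : ∀ x ∈ K, (S.filter fun s => s.1 = x).card ≤ 675 * τ ^ 3 * A * B ^ 2 := by
    intro x hx
    rw [hK, mem_erase, mem_bz] at hx
    obtain ⟨hx0, hxA⟩ := hx
    set X := x.natAbs with hX
    have hX1 : 1 ≤ X := by
      have := Int.natAbs_pos.2 hx0
      omega
    have hXx : (X : ℤ) = |x| := by rw [hX, Int.abs_eq_natAbs]
    have hXA : X ≤ A := by
      rw [← hXx] at hxA
      exact_mod_cast hxA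
    set T := S.filter fun s => s.1 = x with hT
    have hfib : ∀ w ∈ bz X ×ˢ bz X, (T.filter fun s => (s.2.1, s.2.2.1) = w).card * X ^ 2 ≤
        τ * (75 * A * B ^ 2) * (Int.gcd x w.1 * Int.gcd (Int.gcd x w.1 : ℕ) w.2) := by
      rintro ⟨y, z⟩ _
      simp only
      set R := T.filter fun s => (s.2.1, s.2.2.1) = (y, z) with hR
      have hRmem : ∀ s ∈ R, s.1 = x ∧ s.2.1 = y ∧ s.2.2.1 = z ∧ s ∈ S := by
        intro s hs
        rw [hR, mem_filter, hT, mem_filter] at hs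
        obtain ⟨⟨h1, h2⟩, h3⟩ := hs
        rw [Prod.mk.injEq] at h3
        exact ⟨h2, h3.1, h3.2, h1⟩
      rcases R.eq_empty_or_nonempty with h0 | ⟨s0, hs0⟩
      · rw [h0]
        simp
      have hN0 : N x y z ≠ 0 ∧ |N x y z| ≤ 2 * A ^ 2 := by
        obtain ⟨e1, e2, e3, e4⟩ := hRmem s0 hs0
        obtain ⟨x', y', z', i', j', a'⟩ := s0
        simp only at e1 e2 e3
        subst e1 e2 e3
        have := hS _ _ _ _ _ _ e4
        exact ⟨this.2.2.2.2.2.1, this.2.2.2.2.2.2.1⟩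
      obtain ⟨hN1, hN2⟩ := hN0
      set n := (N x y z).natAbs with hn
      have hn1 : 1 ≤ n := by
        have := Int.natAbs_pos.2 hN1
        omega
      have hn2 : n ≤ 2 * A ^ 2 := by
        rw [Int.abs_eq_natAbs] at hN2
        exact_mod_cast hN2
      have hcov : R ⊆ n.divisors.biUnion fun g => R.filter fun s => D g s := by
        intro s hs
        obtain ⟨e1, e2, e3, e4⟩ := hRmem s hs
        rw [mem_biUnion]
        obtain ⟨x', y', z', i', j', a'⟩ := s
        simp only at e1 e2 e3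
        subst e1 e2 e3
        obtain ⟨-, -, -, -, -, -, -, g, hg, hD⟩ := hS _ _ _ _ _ _ e4
        refine ⟨g, ?_, ?_⟩
        · rw [Nat.mem_divisors]
          exact ⟨Int.natCast_dvd.1 hg, by omega⟩
        · rw [mem_filter]
          exact ⟨hs, hD⟩
      have hg1 : ∀ g ∈ n.divisors, (R.filter fun s => D g s).card * X ^ 2 ≤
          75 * A * B ^ 2 * (Int.gcd x y * Int.gcd (Int.gcd x y : ℕ) z) := by
        intro g hg
        have hgp : 1 ≤ g := by
          rw [Nat.mem_divisors] at hg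
          exact Nat.pos_of_dvd_of_pos hg.1 (by omega)
        set U : Finset (ℤ × ℤ × ℤ) :=
          (R.filter fun s => D g s).image fun s => (s.2.2.2.1, s.2.2.2.2.1, s.2.2.2.2.2) with hU
        have hc : (R.filter fun s => D g s).card = U.card := by
          rw [hU, Finset.card_image_of_injOn]
          rintro ⟨x1, y1, z1, i1, j1, a1⟩ hs ⟨x2, y2, z2, i2, j2, a2⟩ ht hst
          rw [mem_coe, mem_filter] at hs ht
          obtain ⟨e1, e2, e3, -⟩ := hRmem _ hs.1
          obtain ⟨f1, f2, f3, -⟩ := hRmem _ ht.1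
          simp only [Prod.mk.injEq] at hst e1 e2 e3 f1 f2 f3 ⊢
          exact ⟨e1.trans f1.symm, e2.trans f2.symm, e3.trans f3.symm, hst⟩
        rw [hc]
        have hmem : ∀ s ∈ U, |s.1| ≤ A ∧ D g (x, y, z, s.1, s.2.1, s.2.2) := by
          rintro ⟨i, j, a⟩ hs
          rw [hU, mem_image] at hs
          obtain ⟨⟨x1, y1, z1, i1, j1, a1⟩, hs, he⟩ := hs
          rw [mem_filter] at hs
          obtain ⟨e1, e2, e3, e4⟩ := hRmem _ hs.1
          simp only [Prod.mk.injEq] at he e1 e2 e3 ⊢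
          obtain ⟨rfl, rfl, rfl⟩ := he
          subst e1 e2 e3
          obtain ⟨-, -, -, -, h5, -⟩ := hS _ _ _ _ _ _ e4
          exact ⟨h5, hs.2⟩
        apply cnt3 _ A B g x y z hA hx0 (hXA.trans hAB) hgp
        · intro s hs
          exact (hmem s hs).1
        · intro s hs t ht hst
          have b1 := (hmem s hs).2
          have b2 := (hmem t ht).2
          rw [← hst] at b2
          exact hD1 g x y z s.1 s.2.1 s.2.2 t.2.1 t.2.2 b1 b2
        · intro s hs t ht hst hst'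
          have b1 := (hmem s hs).2
          have b2 := (hmem t ht).2
          rw [← hst, ← hst'] at b2
          exact hD2 g x y z s.1 s.2.1 s.2.2 t.2.2 b1 b2
      calc R.card * X ^ 2 ≤ (∑ g ∈ n.divisors, (R.filter fun s => D g s).card) * X ^ 2 :=
            Nat.mul_le_mul_right _ ((Finset.card_le_card hcov).trans Finset.card_biUnion_le)
        _ = ∑ g ∈ n.divisors, (R.filter fun s => D g s).card * X ^ 2 := by rw [Finset.sum_mul]
        _ ≤ ∑ g ∈ n.divisors, 75 * A * B ^ 2 * (Int.gcd x y * Int.gcd (Int.gcd x y : ℕ) z) :=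
            Finset.sum_le_sum hg1
        _ = n.divisors.card * (75 * A * B ^ 2 * (Int.gcd x y * Int.gcd (Int.gcd x y : ℕ) z)) := by
            rw [Finset.sum_const, smul_eq_mul]
        _ ≤ τ * (75 * A * B ^ 2 * (Int.gcd x y * Int.gcd (Int.gcd x y : ℕ) z)) :=
            Nat.mul_le_mul_right _ (hτ n hn1 hn2)
        _ = _ := by ring
    have hTc : T.card = ∑ w ∈ bz X ×ˢ bz X, (T.filter fun s => (s.2.1, s.2.2.1) = w).card :=
      Finset.card_eq_sum_card_fiberwise fun s hs => by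
        rw [mem_coe, hT, mem_filter] at hs
        obtain ⟨x', y', z', i', j', a'⟩ := s
        obtain ⟨h1, h2⟩ := hs
        simp only at h2
        subst h2
        have h3 := hS _ _ _ _ _ _ h1
        rw [mem_coe, mem_product, mem_bz, mem_bz, hXx]
        exact ⟨h3.2.2.1, h3.2.2.2.1⟩
    have hτX : ∀ h : ℕ, 1 ≤ h → h ≤ X → h.divisors.card ≤ τ := by
      intro h h1 h2
      apply hτ h h1
      calc h ≤ X := h2
        _ ≤ A := hXA
        _ ≤ A ^ 2 := Nat.le_self_pow (by norm_num) _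
        _ ≤ 2 * A ^ 2 := Nat.le_mul_of_pos_left _ (by norm_num)
    have hsum : ∑ w ∈ bz X ×ˢ bz X, (Int.gcd x w.1 * Int.gcd (Int.gcd x w.1 : ℕ) w.2) ≤
        (3 * X * τ) * (3 * X * τ) := by
      rw [Finset.sum_product]
      simp only
      have h1 : ∀ y ∈ bz X, ∑ z ∈ bz X, (Int.gcd x y * Int.gcd (Int.gcd x y : ℕ) z) ≤
          Int.gcd x y * (3 * X * τ) := by
        intro y _
        rw [← Finset.mul_sum]
        have hp : 1 ≤ Int.gcd x y := Int.gcd_pos_of_ne_zero_left _ hx0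
        have hle : Int.gcd x y ≤ X := Int.gcd_le_natAbs_left _ hx0
        have := gsum (Int.gcd x y) X hp hle
        exact Nat.mul_le_mul_left _ (this.trans (Nat.mul_le_mul_left _ (hτX _ hp hle)))
      have h2 : ∑ y ∈ bz X, Int.gcd x y ≤ 3 * X * τ := by
        have h3 := gsum X X hX1 le_rfl
        have h4 : ∀ y ∈ bz X, Int.gcd (X : ℤ) y = Int.gcd x y := by
          intro y _
          rw [hXx]
          rcases abs_choice x with h | h
          · rw [h]
          · rw [h, Int.neg_gcd]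
        rw [Finset.sum_congr rfl h4] at h3
        exact h3.trans (Nat.mul_le_mul_left _ (hτX X hX1 le_rfl))
      calc ∑ y ∈ bz X, ∑ z ∈ bz X, (Int.gcd x y * Int.gcd (Int.gcd x y : ℕ) z)
          ≤ ∑ y ∈ bz X, Int.gcd x y * (3 * X * τ) := Finset.sum_le_sum h1
        _ = (∑ y ∈ bz X, Int.gcd x y) * (3 * X * τ) := by rw [Finset.sum_mul]
        _ ≤ (3 * X * τ) * (3 * X * τ) := Nat.mul_le_mul_right _ h2
    have hfin : T.card * X ^ 2 ≤ (675 * τ ^ 3 * A * B ^ 2) * X ^ 2 := by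
      calc T.card * X ^ 2 = ∑ w ∈ bz X ×ˢ bz X,
            (T.filter fun s => (s.2.1, s.2.2.1) = w).card * X ^ 2 := by
            rw [hTc, Finset.sum_mul]
        _ ≤ ∑ w ∈ bz X ×ˢ bz X, τ * (75 * A * B ^ 2) *
              (Int.gcd x w.1 * Int.gcd (Int.gcd x w.1 : ℕ) w.2) := Finset.sum_le_sum hfib
        _ = τ * (75 * A * B ^ 2) * ∑ w ∈ bz X ×ˢ bz X,
              (Int.gcd x w.1 * Int.gcd (Int.gcd x w.1 : ℕ) w.2) := by rw [Finset.mul_sum]
        _ ≤ τ * (75 * A * B ^ 2) * ((3 * X * τ) * (3 * X * τ)) := Nat.mul_le_mul_left _ hsum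
        _ = _ := by ring
    exact Nat.le_of_mul_le_mul_right hfin (by positivity)
  have hSc : S.card = ∑ x ∈ K, (S.filter fun s => s.1 = x).card :=
    Finset.card_eq_sum_card_fiberwise fun s hs => by
      obtain ⟨x', y', z', i', j', a'⟩ := s
      have h3 := hS _ _ _ _ _ _ hs
      rw [mem_coe, hK, mem_erase, mem_bz]
      exact ⟨h3.2.1, h3.1⟩
  calc S.card = ∑ x ∈ K, (S.filter fun s => s.1 = x).card := hSc
    _ ≤ ∑ x ∈ K, 675 * τ ^ 3 * A * B ^ 2 := Finset.sum_le_sum key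
    _ = 2 * A * (675 * τ ^ 3 * A * B ^ 2) := by rw [Finset.sum_const, smul_eq_mul, hKc]
    _ = _ := by ring

end Pool.Agent.H26CC
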