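import Mathlib
import Pool.Agent.H26CC.A
import Pool.Agent.H548.TC.Cnt

/-! Symmetric `3 × 3` matrices and their adjugates. -/

namespace Pool.Agent.H26CC

open Finset
open Pool.Agent.H548.WM (ht bx le_ht le_ht' ht_le exists_ht mem_bx card_bx_le dy dy_spec ht_pos
  Rep)
open Pool.Agent.H548.TC (Prim rep_prim prim_ne)

/-- The symmetric `3 × 3` matrix with the coordinates `q`. -/
def sm {R : Type*} (q : Fin 6 → R) : Matrix (Fin 3) (Fin 3) R :=
  !![q 0, q 1, q 2; q 1, q 3, q 4; q 2, q 4, q 5]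

/-- The coordinates of the adjugate. -/
def ad {R : Type*} [CommRing R] (q : Fin 6 → R) : Fin 6 → R :=
  ![q 3 * q 5 - q 4 * q 4, q 2 * q 4 - q 1 * q 5, q 1 * q 4 - q 2 * q 3, q 0 * q 5 - q 2 * q 2,
    q 1 * q 2 - q 0 * q 4, q 0 * q 3 - q 1 * q 1]

/-- The determinant. -/
def dt {R : Type*} [CommRing R] (q : Fin 6 → R) : R :=
  q 0 * (q 3 * q 5 - q 4 * q 4) + q 1 * (q 2 * q 4 - q 1 * q 5) + q 2 * (q 1 * q 4 - q 2 * q 3)

theorem sm_ad {R : Type*} [CommRing R] (q : Fin 6 → R) : sm (ad q) * sm q = dt q • 1 := by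
  ext i j
  fin_cases i <;> fin_cases j <;>
    (simp [sm, ad, dt, Matrix.mul_apply, Fin.sum_univ_three]; try ring)

theorem sm_inj {R : Type*} {q p : Fin 6 → R} (h : sm q = sm p) : q = p := by
  have e := fun i j => congrFun (congrFun h i) j
  funext i
  fin_cases i
  · exact e 0 0
  · exact e 0 1
  · exact e 0 2
  · exact e 1 1
  · exact e 1 2
  · exact e 2 2

theorem sm_smul {R : Type*} [CommRing R] (c : R) (q : Fin 6 → R) : sm (c • q) = c • sm q := by
  ext i j
  fin_cases i <;> fin_cases j <;> rfl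

theorem det_sm {R : Type*} [CommRing R] (q : Fin 6 → R) : (sm q).det = dt q := by
  rw [Matrix.det_fin_three]
  simp [sm, dt]
  ring

/-- The condition on a point of the open set: the product of the two matrices is a nonzero scalar. -/
def Inv {R : Type*} [CommRing R] (q p : Fin 6 → R) : Prop := ∃ c : R, c ≠ 0 ∧ sm q * sm p = c • 1

theorem sm_transpose {R : Type*} (q : Fin 6 → R) : (sm q).transpose = sm q := by
  ext i j
  fin_cases i <;> fin_cases j <;> rfl

theorem inv_symm {R : Type*} [CommRing R] {q p : Fin 6 → R} (h : Inv q p) : Inv p q := by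
  obtain ⟨c, hc, h⟩ := h
  refine ⟨c, hc, ?_⟩
  have e := congrArg Matrix.transpose h
  rwa [Matrix.transpose_mul, sm_transpose, sm_transpose, Matrix.transpose_smul,
    Matrix.transpose_one] at e

theorem inv_dt {q p : Fin 6 → ℤ} (h : Inv q p) : dt q ≠ 0 := by
  obtain ⟨c, hc, h⟩ := h
  intro h0
  have e := congrArg Matrix.det h
  rw [Matrix.det_mul, det_sm, h0, zero_mul, Matrix.det_smul, Matrix.det_one, mul_one,
    Fintype.card_fin] at e
  exact hc (pow_eq_zero_iff (by norm_num) |>.1 e.symm)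

/-- The adjugate of `q` is a multiple of `p`. -/
theorem ad_of {q p : Fin 6 → ℤ} (hp : Prim p) (h : Inv q p) :
    ∃ g : ℤ, g ≠ 0 ∧ ∀ i, ad q i = g * p i := by
  have hd := inv_dt h
  obtain ⟨c, hc, h⟩ := h
  have h1 : c • ad q = dt q • p := by
    apply sm_inj
    rw [sm_smul, sm_smul]
    have e : sm (ad q) * (sm q * sm p) = dt q • sm p := by
      rw [← Matrix.mul_assoc, sm_ad, Matrix.smul_mul, one_mul]
    rw [h, Matrix.mul_smul, mul_one] at e
    exact e
  have h2 : ∀ i, c * ad q i = dt q * p i := fun i => congrFun h1 i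
  obtain ⟨w, hw⟩ := hp
  have h3 : dt q = c * ∑ i, w i * ad q i := by
    rw [Finset.mul_sum]
    calc dt q = dt q * ∑ i, w i * p i := by rw [hw, mul_one]
      _ = ∑ i, w i * (dt q * p i) := by
          rw [Finset.mul_sum]
          exact Finset.sum_congr rfl fun i _ => by ring
      _ = ∑ i, c * (w i * ad q i) := Finset.sum_congr rfl fun i _ => by rw [← h2]; ring
  refine ⟨∑ i, w i * ad q i, ?_, ?_⟩
  · intro h0
    rw [h0, mul_zero] at h3
    exact hd h3
  · intro i
    have h4 := h2 i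
    rw [h3, mul_assoc] at h4
    exact mul_left_cancel₀ hc h4

theorem rep_unique {m : ℕ} {v w : Fin m → ℤ} (hv : Rep v) (hw : Rep w) {a b : ℤ}
    (ha : a ≠ 0) (hb : b ≠ 0) (h : ∀ i, a * v i = b * w i) : v = w := by
  obtain ⟨s, hs⟩ := rep_prim hv
  obtain ⟨t, ht'⟩ := rep_prim hw
  have h1 : a ∣ b := ⟨∑ i, t i * v i, by
    rw [Finset.mul_sum]
    calc b = b * ∑ i, t i * w i := by rw [ht', mul_one]
      _ = ∑ i, t i * (b * w i) := by
          rw [Finset.mul_sum]
          exact Finset.sum_congr rfl fun i _ => by ring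
      _ = ∑ i, a * (t i * v i) := Finset.sum_congr rfl fun i _ => by rw [← h]; ring⟩
  have h2 : b ∣ a := ⟨∑ i, s i * w i, by
    rw [Finset.mul_sum]
    calc a = a * ∑ i, s i * v i := by rw [hs, mul_one]
      _ = ∑ i, s i * (a * v i) := by
          rw [Finset.mul_sum]
          exact Finset.sum_congr rfl fun i _ => by ring
      _ = ∑ i, b * (s i * w i) := Finset.sum_congr rfl fun i _ => by rw [h]; ring⟩
  have h3 : a.natAbs = b.natAbs := Int.natAbs_eq_natAbs_iff.2 <| by
    rcases Int.natAbs_eq_natAbs_iff.1 (Nat.dvd_antisymm (Int.natAbs_dvd_natAbs.2 h1)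
      (Int.natAbs_dvd_natAbs.2 h2)) with h | h
    · exact Or.inl h
    · exact Or.inr h
  rcases Int.natAbs_eq_natAbs_iff.1 h3 with h4 | h4
  · funext i
    have := h i
    rw [h4] at this
    exact mul_left_cancel₀ hb this
  · exfalso
    have h5 : ∀ i, v i = -w i := by
      intro i
      have := h i
      rw [h4] at this
      have h6 : b * (v i + w i) = 0 := by linear_combination -this
      rcases mul_eq_zero.1 h6 with h7 | h7
      · exact absurd h7 hb
      · linarith
    obtain ⟨-, i, hi, hi'⟩ := hv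
    obtain ⟨-, j, hj, hj'⟩ := hw
    rcases lt_trichotomy i j with hij | hij | hij
    · have := hj' i hij
      have h7 := h5 i
      rw [this] at h7
      omega
    · subst hij
      have h7 := h5 i
      omega
    · have := hi' j hij
      have h7 := h5 j
      rw [this] at h7
      omega

theorem inv_unique {q p p' : Fin 6 → ℤ} (hp : Rep p) (hp' : Rep p') (h : Inv q p) (h' : Inv q p') :
    p = p' := by
  obtain ⟨g, hg, hg1⟩ := ad_of (rep_prim hp) h
  obtain ⟨g', hg', hg1'⟩ := ad_of (rep_prim hp') h'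
  exact rep_unique hp hp' hg hg' fun i => by rw [← hg1, ← hg1']

/-- The condition on the common divisor `g` of the adjugate. -/
def Dv (g B : ℕ) (q : Fin 6 → ℤ) : Prop := 1 ≤ g ∧ ∀ i, (g : ℤ) ∣ ad q i ∧ |ad q i| ≤ g * B

theorem dv_of {q p : Fin 6 → ℤ} {B : ℕ} (hp : Prim p) (h : Inv q p) (hB : ht p ≤ B) :
    ∃ g, Dv g B q := by
  obtain ⟨g, hg, hg1⟩ := ad_of hp h
  refine ⟨g.natAbs, ?_, fun i => ⟨?_, ?_⟩⟩
  · have := Int.natAbs_pos.2 hg
    omega
  · rw [hg1, Int.natAbs_dvd]
    exact dvd_mul_right _ _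
  · rw [hg1, abs_mul, Int.abs_eq_natAbs g]
    have h1 : |p i| ≤ (B : ℤ) := (le_ht' p i).trans (by exact_mod_cast hB)
    gcongr

end Pool.Agent.H26CC
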