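import Mathlib
import Pool.Agent.H26CC.B

/-! The number of the matrices with a given size and a given size of the reduced adjugate. -/

namespace Pool.Agent.H26CC

open Finset
open Pool.Agent.H548.WM (ht bx le_ht le_ht' ht_le exists_ht mem_bx card_bx_le dy dy_spec ht_pos
  Rep)

theorem eqv (q : Fin 6 → ℤ) : ![q 0, q 1, q 2, q 3, q 4, q 5] = q := by
  funext i
  fin_cases i <;> rfl

theorem dv0 {g B : ℕ} {a f e b d c : ℤ} (h : Dv g B ![a, f, e, b, d, c]) :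
    ((g : ℤ) ∣ b * c - d * d ∧ |b * c - d * d| ≤ g * B) ∧
    ((g : ℤ) ∣ e * d - f * c ∧ |e * d - f * c| ≤ g * B) ∧
    ((g : ℤ) ∣ f * d - e * b ∧ |f * d - e * b| ≤ g * B) ∧
    ((g : ℤ) ∣ a * c - e * e ∧ |a * c - e * e| ≤ g * B) ∧
    ((g : ℤ) ∣ f * e - a * d ∧ |f * e - a * d| ≤ g * B) ∧
    ((g : ℤ) ∣ a * b - f * f ∧ |a * b - f * f| ≤ g * B) :=
  ⟨h.2 0, h.2 1, h.2 2, h.2 3, h.2 4, h.2 5⟩

theorem dif {g B : ℕ} {u v w : ℤ} (hu : (g : ℤ) ∣ u ∧ |u| ≤ g * B) (hv : (g : ℤ) ∣ v ∧ |v| ≤ g * B)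
    (h : w = u - v ∨ w = v - u) : (g : ℤ) ∣ w ∧ |w| ≤ 2 * g * B := by
  rcases h with rfl | rfl
  · refine ⟨dvd_sub hu.1 hv.1, (abs_sub _ _).trans ?_⟩
    linarith [hu.2, hv.2]
  · refine ⟨dvd_sub hv.1 hu.1, (abs_sub _ _).trans ?_⟩
    linarith [hu.2, hv.2]

theorem bound_n {A : ℕ} {q : Fin 6 → ℤ} (hq : ht q ≤ A) (i j k l : Fin 6) :
    |q i * q j - q k * q l| ≤ 2 * (A : ℤ) ^ 2 := by
  have h : ∀ i, |q i| ≤ (A : ℤ) := fun i => (le_ht' q i).trans (by exact_mod_cast hq)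
  calc |q i * q j - q k * q l| ≤ |q i * q j| + |q k * q l| := abs_sub _ _
    _ = |q i| * |q j| + |q k| * |q l| := by rw [abs_mul, abs_mul]
    _ ≤ A * A + A * A := by gcongr <;> exact h _
    _ = 2 * (A : ℤ) ^ 2 := by ring

open Classical in
theorem sumQ (A B τ : ℕ) (hA : 1 ≤ A) (hAB : A ≤ B)
    (hτ : ∀ n : ℕ, 1 ≤ n → n ≤ 2 * A ^ 2 → n.divisors.card ≤ τ)
    (N : ℤ → ℤ → ℤ → ℤ) (D : ℕ → ℤ × ℤ × ℤ × ℤ × ℤ × ℤ → Prop)
    (e : Fin 6 → Fin 6) (he : Function.Injective e) (S : Finset (Fin 6 → ℤ))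
    (hS : ∀ q ∈ S, |q (e 0)| ≤ A ∧ q (e 0) ≠ 0 ∧ |q (e 1)| ≤ |q (e 0)| ∧ |q (e 2)| ≤ |q (e 0)| ∧
      |q (e 3)| ≤ A ∧ N (q (e 0)) (q (e 1)) (q (e 2)) ≠ 0 ∧
      |N (q (e 0)) (q (e 1)) (q (e 2))| ≤ 2 * A ^ 2 ∧
      ∃ g : ℕ, (g : ℤ) ∣ N (q (e 0)) (q (e 1)) (q (e 2)) ∧
        D g (q (e 0), q (e 1), q (e 2), q (e 3), q (e 4), q (e 5)))
    (hD1 : ∀ g x y z i j a j' a', D g (x, y, z, i, j, a) → D g (x, y, z, i, j', a') →
      (g : ℤ) ∣ x * (j - j') ∧ (g : ℤ) ∣ y * (j - j') ∧ |x * (j - j')| ≤ 2 * g * B)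
    (hD2 : ∀ g x y z i j a a', D g (x, y, z, i, j, a) → D g (x, y, z, i, j, a') →
      (g : ℤ) ∣ x * (a - a') ∧ (g : ℤ) ∣ y * (a - a') ∧ (g : ℤ) ∣ z * (a - a') ∧
      |x * (a - a')| ≤ 2 * g * B) :
    S.card ≤ 1350 * τ ^ 3 * A ^ 2 * B ^ 2 := by
  set E : (Fin 6 → ℤ) → ℤ × ℤ × ℤ × ℤ × ℤ × ℤ := fun q =>
    (q (e 0), q (e 1), q (e 2), q (e 3), q (e 4), q (e 5)) with hE
  have hEinj : Function.Injective E := by
    intro q p h
    simp only [hE, Prod.mk.injEq] at h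
    obtain ⟨h0, h1, h2, h3, h4, h5⟩ := h
    have hb : Function.Bijective e := Finite.injective_iff_bijective.1 he
    funext i
    obtain ⟨k, rfl⟩ := hb.2 i
    fin_cases k
    · exact h0
    · exact h1
    · exact h2
    · exact h3
    · exact h4
    · exact h5
  rw [← Finset.card_image_of_injective S hEinj]
  apply sumM A B τ hA hAB hτ N D (S.image E) _ hD1 hD2
  intro x y z i j a h
  rw [mem_image] at h
  obtain ⟨q, hq, hqe⟩ := h
  simp only [hE, Prod.mk.injEq] at hqe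
  obtain ⟨rfl, rfl, rfl, rfl, rfl, rfl⟩ := hqe
  exact hS q hq

theorem part1 (A B τ : ℕ) (hA : 1 ≤ A) (hAB : A ≤ B)
    (hτ : ∀ n : ℕ, 1 ≤ n → n ≤ 2 * A ^ 2 → n.divisors.card ≤ τ) (S : Finset (Fin 6 → ℤ))
    (hS : ∀ q ∈ S, ht q ≤ A ∧ (∃ g, Dv g B q) ∧ q 3 * q 5 - q 4 * q 4 ≠ 0 ∧ |q 4| ≤ |q 5| ∧
      |q 3| ≤ |q 5|) : S.card ≤ 1350 * τ ^ 3 * A ^ 2 * B ^ 2 := by
  apply sumQ A B τ hA hAB hτ (fun x y z => z * x - y * y)
    (fun g s => Dv g B ![s.2.2.2.2.2, s.2.2.2.2.1, s.2.2.2.1, s.2.2.1, s.2.1, s.1])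
    ![5, 4, 3, 2, 1, 0] (by decide)
  · intro q hq
    obtain ⟨h1, ⟨g, h2⟩, h3, h4, h5⟩ := hS q hq
    have hb : ∀ i, |q i| ≤ (A : ℤ) := fun i => (le_ht' q i).trans (by exact_mod_cast h1)
    refine ⟨hb _, ?_, h4, h5, hb _, h3, bound_n h1 3 5 4 4, g, (h2.2 0).1, ?_⟩
    · intro h0
      apply h3
      have h0' : q 5 = 0 := h0
      rw [h0', abs_zero] at h4
      have : q 4 = 0 := abs_eq_zero.1 (le_antisymm h4 (abs_nonneg _))
      rw [h0', this]
      ring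
    · have := eqv q
      rw [← this] at h2
      exact h2
  · intro g x y z i j a j' a' h h'
    obtain ⟨-, h1, h2, -⟩ := dv0 h
    obtain ⟨-, h1', h2', -⟩ := dv0 h'
    have e1 := dif h1 h1' (w := x * (j - j')) (Or.inr (by ring))
    have e2 := dif h2 h2' (w := y * (j - j')) (Or.inl (by ring))
    exact ⟨e1.1, e2.1, e1.2⟩
  · intro g x y z i j a a' h h'
    obtain ⟨-, -, -, h1, h2, h3⟩ := dv0 h
    obtain ⟨-, -, -, h1', h2', h3'⟩ := dv0 h'
    have e1 := dif h1 h1' (w := x * (a - a')) (Or.inl (by ring))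
    have e2 := dif h2 h2' (w := y * (a - a')) (Or.inr (by ring))
    have e3 := dif h3 h3' (w := z * (a - a')) (Or.inl (by ring))
    exact ⟨e1.1, e2.1, e3.1, e1.2⟩

theorem part2 (A B τ : ℕ) (hA : 1 ≤ A) (hAB : A ≤ B)
    (hτ : ∀ n : ℕ, 1 ≤ n → n ≤ 2 * A ^ 2 → n.divisors.card ≤ τ) (S : Finset (Fin 6 → ℤ))
    (hS : ∀ q ∈ S, ht q ≤ A ∧ (∃ g, Dv g B q) ∧ q 3 * q 5 - q 4 * q 4 ≠ 0 ∧ |q 5| ≤ |q 4| ∧
      |q 3| ≤ |q 4|) : S.card ≤ 1350 * τ ^ 3 * A ^ 2 * B ^ 2 := by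
  apply sumQ A B τ hA hAB hτ (fun x y z => z * y - x * x)
    (fun g s => Dv g B ![s.2.2.2.2.2, s.2.2.2.2.1, s.2.2.2.1, s.2.2.1, s.1, s.2.1])
    ![4, 5, 3, 2, 1, 0] (by decide)
  · intro q hq
    obtain ⟨h1, ⟨g, h2⟩, h3, h4, h5⟩ := hS q hq
    have hb : ∀ i, |q i| ≤ (A : ℤ) := fun i => (le_ht' q i).trans (by exact_mod_cast h1)
    refine ⟨hb _, ?_, h4, h5, hb _, h3, bound_n h1 3 5 4 4, g, (h2.2 0).1, ?_⟩
    · intro h0
      apply h3
      have h0' : q 4 = 0 := h0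
      rw [h0', abs_zero] at h4
      have : q 5 = 0 := abs_eq_zero.1 (le_antisymm h4 (abs_nonneg _))
      rw [h0', this]
      ring
    · have := eqv q
      rw [← this] at h2
      exact h2
  · intro g x y z i j a j' a' h h'
    obtain ⟨-, h1, h2, -⟩ := dv0 h
    obtain ⟨-, h1', h2', -⟩ := dv0 h'
    have e1 := dif h1 h1' (w := y * (j - j')) (Or.inr (by ring))
    have e2 := dif h2 h2' (w := x * (j - j')) (Or.inl (by ring))
    exact ⟨e2.1, e1.1, e2.2⟩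
  · intro g x y z i j a a' h h'
    obtain ⟨-, -, -, h1, h2, h3⟩ := dv0 h
    obtain ⟨-, -, -, h1', h2', h3'⟩ := dv0 h'
    have e1 := dif h1 h1' (w := y * (a - a')) (Or.inl (by ring))
    have e2 := dif h2 h2' (w := x * (a - a')) (Or.inr (by ring))
    have e3 := dif h3 h3' (w := z * (a - a')) (Or.inl (by ring))
    exact ⟨e2.1, e1.1, e3.1, e2.2⟩

theorem part3 (A B τ : ℕ) (hA : 1 ≤ A) (hAB : A ≤ B)
    (hτ : ∀ n : ℕ, 1 ≤ n → n ≤ 2 * A ^ 2 → n.divisors.card ≤ τ) (S : Finset (Fin 6 → ℤ))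
    (hS : ∀ q ∈ S, ht q ≤ A ∧ (∃ g, Dv g B q) ∧ q 3 * q 5 - q 4 * q 4 ≠ 0 ∧ |q 4| ≤ |q 3| ∧
      |q 5| ≤ |q 3|) : S.card ≤ 1350 * τ ^ 3 * A ^ 2 * B ^ 2 := by
  apply sumQ A B τ hA hAB hτ (fun x y z => x * z - y * y)
    (fun g s => Dv g B ![s.2.2.2.2.2, s.2.2.2.1, s.2.2.2.2.1, s.1, s.2.1, s.2.2.1])
    ![3, 4, 5, 1, 2, 0] (by decide)
  · intro q hq
    obtain ⟨h1, ⟨g, h2⟩, h3, h4, h5⟩ := hS q hq
    have hb : ∀ i, |q i| ≤ (A : ℤ) := fun i => (le_ht' q i).trans (by exact_mod_cast h1)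
    refine ⟨hb _, ?_, h4, h5, hb _, h3, bound_n h1 3 5 4 4, g, (h2.2 0).1, ?_⟩
    · intro h0
      apply h3
      have h0' : q 3 = 0 := h0
      rw [h0', abs_zero] at h4
      have : q 4 = 0 := abs_eq_zero.1 (le_antisymm h4 (abs_nonneg _))
      rw [h0', this]
      ring
    · have := eqv q
      rw [← this] at h2
      exact h2
  · intro g x y z i j a j' a' h h'
    obtain ⟨-, h1, h2, -⟩ := dv0 h
    obtain ⟨-, h1', h2', -⟩ := dv0 h'
    have e1 := dif h1 h1' (w := y * (j - j')) (Or.inl (by ring))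
    have e2 := dif h2 h2' (w := x * (j - j')) (Or.inr (by ring))
    exact ⟨e2.1, e1.1, e2.2⟩
  · intro g x y z i j a a' h h'
    obtain ⟨-, -, -, h1, h2, h3⟩ := dv0 h
    obtain ⟨-, -, -, h1', h2', h3'⟩ := dv0 h'
    have e1 := dif h1 h1' (w := z * (a - a')) (Or.inl (by ring))
    have e2 := dif h2 h2' (w := y * (a - a')) (Or.inr (by ring))
    have e3 := dif h3 h3' (w := x * (a - a')) (Or.inl (by ring))
    exact ⟨e3.1, e2.1, e1.1, e3.2⟩

/-- The number of triples with `b c = d ^ 2`. -/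
theorem card_con (A τ : ℕ) (hA : 1 ≤ A)
    (hτ : ∀ n : ℕ, 1 ≤ n → n ≤ 2 * A ^ 2 → n.divisors.card ≤ τ) (S : Finset (ℤ × ℤ × ℤ))
    (hS : ∀ s ∈ S, |s.1| ≤ A ∧ |s.2.1| ≤ A ∧ |s.2.2| ≤ A ∧ s.1 * s.2.2 = s.2.1 * s.2.1) :
    S.card ≤ 10 * A * τ := by
  classical
  have hτ1 : 1 ≤ τ := by
    have := hτ 1 le_rfl (by nlinarith)
    simpa using this
  set S0 := S.filter fun s => s.2.1 = 0 with hS0
  set S1 := S.filter fun s => ¬ s.2.1 = 0 with hS1
  have h01 : S0.card + S1.card = S.card := Finset.card_filter_add_card_filter_not _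
  have h0 : S0.card ≤ 6 * A := by
    have hsub : S0 ⊆ ((bz A).image fun t => (t, (0 : ℤ), (0 : ℤ))) ∪
        ((bz A).image fun t => ((0 : ℤ), (0 : ℤ), t)) := by
      rintro ⟨b, d, c⟩ hs
      rw [hS0, mem_filter] at hs
      obtain ⟨h1, h2⟩ := hs
      simp only at h2
      subst h2
      have h3 := hS _ h1
      simp only [mul_zero, mul_eq_zero] at h3
      obtain ⟨h4, -, h5, h6⟩ := h3
      rw [mem_union, mem_image, mem_image]
      rcases h6 with rfl | rfl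
      · right
        exact ⟨c, mem_bz.2 h5, rfl⟩
      · left
        exact ⟨b, mem_bz.2 h4, rfl⟩
    calc S0.card ≤ _ := Finset.card_le_card hsub
      _ ≤ _ := Finset.card_union_le _ _
      _ ≤ (bz A).card + (bz A).card := Nat.add_le_add Finset.card_image_le Finset.card_image_le
      _ = 2 * (2 * A + 1) := by rw [card_bz]; ring
      _ ≤ 6 * A := by omega
  have h1 : S1.card ≤ 4 * A * τ := by
    have hfib : ∀ d ∈ (bz A).erase 0, (S1.filter fun s => s.2.1 = d).card ≤ 2 * τ := by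
      intro d hd
      rw [mem_erase, mem_bz] at hd
      obtain ⟨hd0, hdA⟩ := hd
      have hn1 : 1 ≤ (d * d).natAbs := by
        have := Int.natAbs_pos.2 (mul_ne_zero hd0 hd0)
        omega
      have hn2 : (d * d).natAbs ≤ 2 * A ^ 2 := by
        have h2 : |d * d| ≤ 2 * (A : ℤ) ^ 2 := by
          rw [abs_mul]
          have h3 : |d| * |d| ≤ (A : ℤ) * A := by gcongr
          nlinarith
        rw [Int.abs_eq_natAbs] at h2
        exact_mod_cast h2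
      have hinj : Set.InjOn (fun s : ℤ × ℤ × ℤ => (s.1.natAbs, decide (0 ≤ s.1)))
          ((S1.filter fun s => s.2.1 = d : Finset (ℤ × ℤ × ℤ)) : Set (ℤ × ℤ × ℤ)) := by
        rintro ⟨b, d1, c⟩ hs ⟨b', d2, c'⟩ ht' hst
        rw [mem_coe, mem_filter, hS1, mem_filter] at hs ht'
        obtain ⟨⟨h1, -⟩, h2⟩ := hs
        obtain ⟨⟨h1', -⟩, h2'⟩ := ht'
        simp only at h2 h2'
        subst h2 h2'
        simp only [Prod.mk.injEq] at hst
        obtain ⟨e1, e2⟩ := hst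
        have e3 : b = b' := by
          rw [decide_eq_decide] at e2
          omega
        subst e3
        have h3 := (hS _ h1).2.2.2
        have h3' := (hS _ h1').2.2.2
        simp only at h3 h3'
        have hb : b ≠ 0 := by
          rintro rfl
          rw [zero_mul] at h3
          exact (mul_ne_zero hd0 hd0) h3.symm
        have : c = c' := mul_left_cancel₀ hb (h3.trans h3'.symm)
        rw [this]
      have hmaps : Set.MapsTo (fun s : ℤ × ℤ × ℤ => (s.1.natAbs, decide (0 ≤ s.1)))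
          ((S1.filter fun s => s.2.1 = d : Finset (ℤ × ℤ × ℤ)) : Set (ℤ × ℤ × ℤ))
          (((d * d).natAbs.divisors ×ˢ (univ : Finset Bool) : Finset (ℕ × Bool)) : Set (ℕ × Bool)) := by
        rintro ⟨b, d1, c⟩ hs
        rw [mem_coe, mem_filter, hS1, mem_filter] at hs
        obtain ⟨⟨h1, -⟩, h2⟩ := hs
        simp only at h2
        subst h2
        rw [mem_coe, mem_product]
        refine ⟨?_, mem_univ _⟩
        simp only
        rw [Nat.mem_divisors]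
        refine ⟨?_, by omega⟩
        have h3 := (hS _ h1).2.2.2
        simp only at h3
        rw [← h3]
        exact Int.natAbs_dvd_natAbs.2 (dvd_mul_right _ _)
      have h2 := Finset.card_le_card_of_injOn _ hmaps hinj
      rw [card_product] at h2
      have h3 := hτ _ hn1 hn2
      calc (S1.filter fun s => s.2.1 = d).card ≤ _ := h2
        _ = 2 * (d * d).natAbs.divisors.card := by
            rw [Finset.card_univ, Fintype.card_bool]; ring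
        _ ≤ 2 * τ := Nat.mul_le_mul_left _ h3
    have hSc : S1.card = ∑ d ∈ (bz A).erase 0, (S1.filter fun s => s.2.1 = d).card :=
      Finset.card_eq_sum_card_fiberwise fun s hs => by
        rw [mem_coe, hS1, mem_filter] at hs
        rw [mem_coe, mem_erase, mem_bz]
        exact ⟨hs.2, (hS s hs.1).2.1⟩
    have hKc : ((bz A).erase 0).card = 2 * A := by
      rw [Finset.card_erase_of_mem (by rw [mem_bz]; simp), card_bz]
      omega
    calc S1.card = ∑ d ∈ (bz A).erase 0, (S1.filter fun s => s.2.1 = d).card := hSc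
      _ ≤ ∑ d ∈ (bz A).erase 0, 2 * τ := Finset.sum_le_sum hfib
      _ = 4 * A * τ := by rw [Finset.sum_const, smul_eq_mul, hKc]; ring
  have h2 : 6 * A ≤ 6 * A * τ := Nat.le_mul_of_pos_right _ hτ1
  nlinarith

end Pool.Agent.H26CC
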