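import Mathlib
import Pool.Agent.H26CC.C

/-! The number of the matrices with a given size and a given size of the reduced adjugate. -/

namespace Pool.Agent.H26CC

open Finset
open Pool.Agent.H548.WM (ht bx le_ht le_ht' ht_le exists_ht mem_bx card_bx_le dy dy_spec ht_pos
  Rep)

open Classical in
theorem part0 (A B τ : ℕ) (hA : 1 ≤ A) (hAB : A ≤ B)
    (hτ : ∀ n : ℕ, 1 ≤ n → n ≤ 2 * A ^ 2 → n.divisors.card ≤ τ) (S : Finset (Fin 6 → ℤ))
    (hS : ∀ q ∈ S, ht q ≤ A ∧ dt q ≠ 0 ∧ (∃ g, Dv g B q) ∧ q 3 * q 5 - q 4 * q 4 = 0) :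
    S.card ≤ 450 * τ ^ 2 * A ^ 3 * B := by
  set κ : (Fin 6 → ℤ) → (ℤ × ℤ × ℤ) × (ℤ × ℤ) := fun q => ((q 3, q 4, q 5), (q 1, q 2)) with hκ
  set K := S.image fun q => (q 3, q 4, q 5) with hK
  have hKc : K.card ≤ 10 * A * τ := by
    apply card_con A τ hA hτ
    intro s hs
    rw [hK, mem_image] at hs
    obtain ⟨q, hq, rfl⟩ := hs
    obtain ⟨h1, -, -, h2⟩ := hS q hq
    have hb : ∀ i, |q i| ≤ (A : ℤ) := fun i => (le_ht' q i).trans (by exact_mod_cast h1)
    exact ⟨hb _, hb _, hb _, by linarith⟩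
  set W := K ×ˢ (bz A ×ˢ bz A) with hW
  have hWc : W.card ≤ 90 * τ * A ^ 3 := by
    rw [hW, card_product, card_product, card_bz]
    calc K.card * ((2 * A + 1) * (2 * A + 1)) ≤ (10 * A * τ) * ((3 * A) * (3 * A)) := by
          gcongr <;> omega
      _ = 90 * τ * A ^ 3 := by ring
  have hfib : ∀ w ∈ W, (S.filter fun q => κ q = w).card ≤ 5 * B * τ := by
    rintro ⟨⟨b, d, c⟩, ⟨f, e⟩⟩ _
    set T := S.filter fun q => κ q = ((b, d, c), (f, e)) with hT
    have hTmem : ∀ q ∈ T, q ∈ S ∧ q 3 = b ∧ q 4 = d ∧ q 5 = c ∧ q 1 = f ∧ q 2 = e := by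
      intro q hq
      rw [hT, mem_filter] at hq
      obtain ⟨h1, h2⟩ := hq
      simp only [hκ, Prod.mk.injEq] at h2
      exact ⟨h1, h2.1.1, h2.1.2.1, h2.1.2.2, h2.2.1, h2.2.2⟩
    rcases T.eq_empty_or_nonempty with h0 | ⟨q0, hq0⟩
    · rw [h0]
      simp
    -- a nonzero coordinate and a nonzero minor
    obtain ⟨m, hm12, hm⟩ : ∃ m : Fin 6, (m = 1 ∨ m = 2) ∧ ad q0 m ≠ 0 := by
      by_contra hc
      push Not at hc
      have h1 := hc 1 (Or.inl rfl)
      have h2 := hc 2 (Or.inr rfl)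
      obtain ⟨-, h3, -, h4⟩ := hS q0 (hTmem q0 hq0).1
      apply h3
      have h1' : q0 2 * q0 4 - q0 1 * q0 5 = 0 := h1
      have h2' : q0 1 * q0 4 - q0 2 * q0 3 = 0 := h2
      unfold dt
      rw [h4, h1', h2']
      ring
    obtain ⟨x, hx345, hx⟩ : ∃ x : Fin 6, (x = 3 ∨ x = 4 ∨ x = 5) ∧ q0 x ≠ 0 := by
      by_contra hc
      push Not at hc
      have h3 : q0 3 = 0 := hc 3 (Or.inl rfl)
      have h4 : q0 4 = 0 := hc 4 (Or.inr (Or.inl rfl))
      have h5 : q0 5 = 0 := hc 5 (Or.inr (Or.inr rfl))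
      apply hm
      rcases hm12 with rfl | rfl
      · show q0 2 * q0 4 - q0 1 * q0 5 = 0
        rw [h4, h5]
        ring
      · show q0 1 * q0 4 - q0 2 * q0 3 = 0
        rw [h3, h4]
        ring
    have hsame : ∀ q ∈ T, q 1 = q0 1 ∧ q 2 = q0 2 ∧ q 3 = q0 3 ∧ q 4 = q0 4 ∧ q 5 = q0 5 := by
      intro q hq
      obtain ⟨-, a3, a4, a5, a1, a2⟩ := hTmem q hq
      obtain ⟨-, b3, b4, b5, b1, b2⟩ := hTmem q0 hq0
      exact ⟨a1.trans b1.symm, a2.trans b2.symm, a3.trans b3.symm, a4.trans b4.symm,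
        a5.trans b5.symm⟩
    have hadm : ∀ q ∈ T, ad q m = ad q0 m := by
      intro q hq
      obtain ⟨a1, a2, a3, a4, a5⟩ := hsame q hq
      rcases hm12 with rfl | rfl
      · show q 2 * q 4 - q 1 * q 5 = q0 2 * q0 4 - q0 1 * q0 5
        rw [a1, a2, a4, a5]
      · show q 1 * q 4 - q 2 * q 3 = q0 1 * q0 4 - q0 2 * q0 3
        rw [a1, a2, a3, a4]
    obtain ⟨hq0A, -, -, -⟩ := hS q0 (hTmem q0 hq0).1
    set n := (ad q0 m).natAbs with hn
    have hn1 : 1 ≤ n := by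
      have := Int.natAbs_pos.2 hm
      omega
    have hn2 : n ≤ 2 * A ^ 2 := by
      have h2 : |ad q0 m| ≤ 2 * (A : ℤ) ^ 2 := by
        rcases hm12 with rfl | rfl
        · exact bound_n hq0A 2 4 1 5
        · exact bound_n hq0A 1 4 2 3
      rw [Int.abs_eq_natAbs] at h2
      exact_mod_cast h2
    have hcov : T ⊆ n.divisors.biUnion fun g => T.filter fun q => Dv g B q := by
      intro q hq
      obtain ⟨-, -, ⟨g, hg⟩, -⟩ := hS q (hTmem q hq).1
      rw [mem_biUnion]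
      refine ⟨g, ?_, ?_⟩
      · rw [Nat.mem_divisors]
        refine ⟨?_, by omega⟩
        have := (hg.2 m).1
        rw [hadm q hq] at this
        exact Int.natCast_dvd.1 this
      · rw [mem_filter]
        exact ⟨hq, hg⟩
    have hone : ∀ g ∈ n.divisors, (T.filter fun q => Dv g B q).card ≤ 5 * B := by
      intro g hg
      have hgp : 1 ≤ g := by
        rw [Nat.mem_divisors] at hg
        exact Nat.pos_of_dvd_of_pos hg.1 (by omega)
      have hc : (T.filter fun q => Dv g B q).card =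
          ((T.filter fun q => Dv g B q).image fun q => q 0).card := by
        rw [Finset.card_image_of_injOn]
        intro q hq p hp hqp
        rw [mem_coe, mem_filter] at hq hp
        obtain ⟨a1, a2, a3, a4, a5⟩ := hsame q hq.1
        obtain ⟨b1, b2, b3, b4, b5⟩ := hsame p hp.1
        simp only at hqp
        funext i
        fin_cases i
        · exact hqp
        · exact a1.trans b1.symm
        · exact a2.trans b2.symm
        · exact a3.trans b3.symm
        · exact a4.trans b4.symm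
        · exact a5.trans b5.symm
      rw [hc]
      set X := (q0 x).natAbs with hX
      have hX1 : 1 ≤ X := by
        have := Int.natAbs_pos.2 hx
        omega
      have hXx : (X : ℤ) = |q0 x| := by rw [hX, Int.abs_eq_natAbs]
      have h1 : ((T.filter fun q => Dv g B q).image fun q => q 0).card * X ≤ 5 * X * B := by
        apply ap_count _ g X X B hgp hX1 hX1 (Nat.le_mul_of_pos_right _ (by omega))
        intro u hu v hv
        rw [mem_image] at hu hv
        obtain ⟨q, hq, rfl⟩ := hu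
        obtain ⟨p, hp, rfl⟩ := hv
        rw [mem_filter] at hq hp
        obtain ⟨a1, a2, a3, a4, a5⟩ := hsame q hq.1
        obtain ⟨b1, b2, b3, b4, b5⟩ := hsame p hp.1
        have hD := hq.2
        have hD' := hp.2
        rw [← eqv q, a1, a2, a3, a4, a5] at hD
        rw [← eqv p, b1, b2, b3, b4, b5] at hD'
        obtain ⟨-, -, -, c1, c2, c3⟩ := dv0 hD
        obtain ⟨-, -, -, d1, d2, d3⟩ := dv0 hD'
        have key : (g : ℤ) ∣ q0 x * (q 0 - p 0) ∧ |q0 x * (q 0 - p 0)| ≤ 2 * g * B := by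
          rcases hx345 with rfl | rfl | rfl
          · exact dif c3 d3 (Or.inl (by ring))
          · exact dif c2 d2 (Or.inr (by ring))
          · exact dif c1 d1 (Or.inl (by ring))
        refine ⟨?_, ?_⟩
        · rw [hXx]
          rcases abs_choice (q0 x) with h | h
          · rw [h]
            exact key.1
          · rw [h, neg_mul]
            exact (dvd_neg.2 key.1)
        · rw [hXx, mul_comm, ← abs_mul]
          exact key.2
      have h2 : ((T.filter fun q => Dv g B q).image fun q => q 0).card * X ≤ (5 * B) * X := by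
        linarith
      exact Nat.le_of_mul_le_mul_right h2 hX1
    calc T.card ≤ ∑ g ∈ n.divisors, (T.filter fun q => Dv g B q).card :=
          (Finset.card_le_card hcov).trans Finset.card_biUnion_le
      _ ≤ ∑ g ∈ n.divisors, 5 * B := Finset.sum_le_sum hone
      _ = n.divisors.card * (5 * B) := by rw [Finset.sum_const, smul_eq_mul]
      _ ≤ τ * (5 * B) := Nat.mul_le_mul_right _ (hτ n hn1 hn2)
      _ = 5 * B * τ := by ring
  have hSc : S.card = ∑ w ∈ W, (S.filter fun q => κ q = w).card :=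
    Finset.card_eq_sum_card_fiberwise fun q hq => by
      obtain ⟨h1, -⟩ := hS q hq
      have hb : ∀ i, |q i| ≤ (A : ℤ) := fun i => (le_ht' q i).trans (by exact_mod_cast h1)
      rw [mem_coe, hW, mem_product, mem_product, mem_bz, mem_bz]
      exact ⟨mem_image.2 ⟨q, hq, rfl⟩, hb _, hb _⟩
  calc S.card = ∑ w ∈ W, (S.filter fun q => κ q = w).card := hSc
    _ ≤ ∑ w ∈ W, 5 * B * τ := Finset.sum_le_sum hfib
    _ = W.card * (5 * B * τ) := by rw [Finset.sum_const, smul_eq_mul]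
    _ ≤ (90 * τ * A ^ 3) * (5 * B * τ) := Nat.mul_le_mul_right _ hWc
    _ = _ := by ring

open Classical in
/-- The number of the matrices with a given size and a given size of the reduced adjugate. -/
theorem cntq (A B τ : ℕ) (hA : 1 ≤ A) (hAB : A ≤ B)
    (hτ : ∀ n : ℕ, 1 ≤ n → n ≤ 2 * A ^ 2 → n.divisors.card ≤ τ) (S : Finset (Fin 6 → ℤ))
    (hS : ∀ q ∈ S, ht q ≤ A ∧ dt q ≠ 0 ∧ ∃ g, Dv g B q) :
    S.card ≤ 4500 * τ ^ 3 * A ^ 2 * B ^ 2 := by
  set S0 := S.filter fun q => q 3 * q 5 - q 4 * q 4 = 0 with hS0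
  set S1 := S.filter fun q => q 3 * q 5 - q 4 * q 4 ≠ 0 ∧ |q 4| ≤ |q 5| ∧ |q 3| ≤ |q 5| with hS1
  set S2 := S.filter fun q => q 3 * q 5 - q 4 * q 4 ≠ 0 ∧ |q 5| ≤ |q 4| ∧ |q 3| ≤ |q 4| with hS2
  set S3 := S.filter fun q => q 3 * q 5 - q 4 * q 4 ≠ 0 ∧ |q 4| ≤ |q 3| ∧ |q 5| ≤ |q 3| with hS3
  have hcov : S ⊆ ((S0 ∪ S1) ∪ S2) ∪ S3 := by
    intro q hq
    rw [mem_union, mem_union, mem_union, hS0, hS1, hS2, hS3, mem_filter, mem_filter, mem_filter,
      mem_filter]
    by_cases h : q 3 * q 5 - q 4 * q 4 = 0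
    · tauto
    · have hmax : ∀ u v w : ℤ, (v ≤ w ∧ u ≤ w) ∨ (w ≤ v ∧ u ≤ v) ∨ (v ≤ u ∧ w ≤ u) := by
        intro u v w
        omega
      have := hmax |q 3| |q 4| |q 5|
      tauto
  have h0 : S0.card ≤ 450 * τ ^ 2 * A ^ 3 * B := by
    apply part0 A B τ hA hAB hτ
    intro q hq
    rw [hS0, mem_filter] at hq
    obtain ⟨h1, h2, h3⟩ := hS q hq.1
    exact ⟨h1, h2, h3, hq.2⟩
  have h1 : S1.card ≤ 1350 * τ ^ 3 * A ^ 2 * B ^ 2 := by
    apply part1 A B τ hA hAB hτ
    intro q hq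
    rw [hS1, mem_filter] at hq
    obtain ⟨h1, h2, h3⟩ := hS q hq.1
    exact ⟨h1, h3, hq.2⟩
  have h2 : S2.card ≤ 1350 * τ ^ 3 * A ^ 2 * B ^ 2 := by
    apply part2 A B τ hA hAB hτ
    intro q hq
    rw [hS2, mem_filter] at hq
    obtain ⟨h1, h2, h3⟩ := hS q hq.1
    exact ⟨h1, h3, hq.2⟩
  have h3 : S3.card ≤ 1350 * τ ^ 3 * A ^ 2 * B ^ 2 := by
    apply part3 A B τ hA hAB hτ
    intro q hq
    rw [hS3, mem_filter] at hq
    obtain ⟨h1, h2, h3⟩ := hS q hq.1
    exact ⟨h1, h3, hq.2⟩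
  have hτ1 : 1 ≤ τ := by
    have := hτ 1 le_rfl (by nlinarith)
    simpa using this
  have h0' : S0.card ≤ 450 * τ ^ 3 * A ^ 2 * B ^ 2 := by
    refine h0.trans ?_
    calc 450 * τ ^ 2 * A ^ 3 * B = 450 * (τ ^ 2 * 1) * A ^ 2 * (A * B) := by ring
      _ ≤ 450 * (τ ^ 2 * τ) * A ^ 2 * (B * B) := by gcongr
      _ = _ := by ring
  calc S.card ≤ (((S0 ∪ S1) ∪ S2) ∪ S3).card := Finset.card_le_card hcov
    _ ≤ ((S0 ∪ S1) ∪ S2).card + S3.card := Finset.card_union_le _ _
    _ ≤ ((S0 ∪ S1).card + S2.card) + S3.card := by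
        gcongr
        exact Finset.card_union_le _ _
    _ ≤ ((S0.card + S1.card) + S2.card) + S3.card := by
        gcongr
        exact Finset.card_union_le _ _
    _ ≤ _ := by linarith

end Pool.Agent.H26CC
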