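import Mathlib
import Pool.Agent.H26CC.D

/-! All line bundles. -/

namespace Pool.Agent.H26CC

open Finset
open Pool.Agent.H548.WM (ht bx le_ht le_ht' ht_le exists_ht mem_bx card_bx_le dy dy_spec ht_pos
  Rep)
open Pool.Agent.H548.TC (Prim rep_prim prim_ne)

theorem size1 {q p : Fin 6 → ℤ} (hp : Prim p) (h : Inv q p) : ht p ≤ 2 * ht q ^ 2 := by
  obtain ⟨g, hg, hg1⟩ := ad_of hp h
  apply ht_le
  intro i
  have h1 : |p i| ≤ |ad q i| := by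
    rw [hg1, abs_mul]
    exact le_mul_of_one_le_left (abs_nonneg _) (Int.one_le_abs hg)
  refine h1.trans ?_
  push_cast
  fin_cases i
  · exact bound_n le_rfl 3 5 4 4
  · exact bound_n le_rfl 2 4 1 5
  · exact bound_n le_rfl 1 4 2 3
  · exact bound_n le_rfl 0 5 2 2
  · exact bound_n le_rfl 1 2 0 4
  · exact bound_n le_rfl 0 3 1 1

/-- The pairs `(q, p)` with `A ≤ B`. -/
theorem half (A B τ : ℕ) (hA : 1 ≤ A) (hAB : A ≤ B)
    (hτ : ∀ n : ℕ, 1 ≤ n → n ≤ 2 * A ^ 2 → n.divisors.card ≤ τ)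
    (S : Finset ((Fin 6 → ℤ) × (Fin 6 → ℤ)))
    (hS : ∀ t ∈ S, Rep t.1 ∧ Rep t.2 ∧ Inv t.1 t.2 ∧ ht t.1 ≤ A ∧ ht t.2 ≤ B) :
    S.card ≤ 4500 * τ ^ 3 * A ^ 2 * B ^ 2 := by
  classical
  have h1 : S.card = (S.image Prod.fst).card := by
    rw [Finset.card_image_of_injOn]
    rintro ⟨q, p⟩ hs ⟨q', p'⟩ hs' h
    simp only at h
    subst h
    obtain ⟨-, a2, a3, -⟩ := hS _ hs
    obtain ⟨-, b2, b3, -⟩ := hS _ hs'
    exact Prod.ext rfl (inv_unique a2 b2 a3 b3)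
  rw [h1]
  apply cntq A B τ hA hAB hτ
  intro q hq
  rw [mem_image] at hq
  obtain ⟨⟨q', p⟩, hs, rfl⟩ := hq
  obtain ⟨-, a2, a3, a4, a5⟩ := hS _ hs
  exact ⟨a4, inv_dt a3, dv_of (rep_prim a2) a3 a5⟩

/-- The number of points with given sizes. -/
theorem box (ε : ℝ) (hε : 0 < ε) : ∃ C : ℝ, 0 < C ∧ ∀ A B : ℕ, 1 ≤ A → 1 ≤ B →
    ∀ S : Finset ((Fin 6 → ℤ) × (Fin 6 → ℤ)),
      (∀ t ∈ S, Rep t.1 ∧ Rep t.2 ∧ Inv t.1 t.2 ∧ ht t.1 ≤ A ∧ ht t.2 ≤ B) →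
      (S.card : ℝ) ≤ C * ((A * B : ℕ) : ℝ) ^ (2 + ε) := by
  classical
  obtain ⟨C, hC, hsm⟩ := Pool.Agent.W978.QM.small_bound 2 (by norm_num) (ε / 3) (by positivity)
  have key : ∀ A B : ℕ, 1 ≤ A → A ≤ B → ∀ S : Finset ((Fin 6 → ℤ) × (Fin 6 → ℤ)),
      (∀ t ∈ S, Rep t.1 ∧ Rep t.2 ∧ Inv t.1 t.2 ∧ ht t.1 ≤ A ∧ ht t.2 ≤ B) →
      (S.card : ℝ) ≤ 4500 * C ^ 3 * ((A * B : ℕ) : ℝ) ^ (2 + ε) := by
    intro A B hA hAB S hS
    have hA0 : (0 : ℝ) < A := by exact_mod_cast hA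
    have hB0 : (0 : ℝ) < B := by exact_mod_cast hA.trans hAB
    have hB1 : (1 : ℝ) ≤ B := by exact_mod_cast hA.trans hAB
    set τ := ⌊C * (A : ℝ) ^ (ε / 3)⌋₊ with hτ
    have h1 := half A B τ hA hAB (fun n hn hn' => Nat.le_floor ((hsm A hA).1 n hn hn')) S hS
    have h2 : (τ : ℝ) ≤ C * (A : ℝ) ^ (ε / 3) := Nat.floor_le (by positivity)
    have h3 : (S.card : ℝ) ≤ 4500 * (τ : ℝ) ^ 3 * (A : ℝ) ^ 2 * (B : ℝ) ^ 2 := by exact_mod_cast h1
    have h4 : ((A : ℝ) ^ (ε / 3)) ^ 3 ≤ ((A * B : ℕ) : ℝ) ^ ε := by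
      rw [← Real.rpow_natCast, ← Real.rpow_mul hA0.le]
      have : ε / 3 * ((3 : ℕ) : ℝ) = ε := by push_cast; ring
      rw [this]
      apply Real.rpow_le_rpow hA0.le _ hε.le
      push_cast
      exact le_mul_of_one_le_right hA0.le hB1
    calc (S.card : ℝ) ≤ 4500 * (τ : ℝ) ^ 3 * (A : ℝ) ^ 2 * (B : ℝ) ^ 2 := h3
      _ ≤ 4500 * (C * (A : ℝ) ^ (ε / 3)) ^ 3 * (A : ℝ) ^ 2 * (B : ℝ) ^ 2 := by gcongr
      _ = 4500 * C ^ 3 * (((A * B : ℕ) : ℝ) ^ 2 * ((A : ℝ) ^ (ε / 3)) ^ 3) := by push_cast; ring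
      _ ≤ 4500 * C ^ 3 * (((A * B : ℕ) : ℝ) ^ 2 * ((A * B : ℕ) : ℝ) ^ ε) := by gcongr
      _ = 4500 * C ^ 3 * ((A * B : ℕ) : ℝ) ^ (2 + ε) := by
          rw [Real.rpow_add (by push_cast; positivity)]
          norm_num
  refine ⟨4500 * C ^ 3, by positivity, ?_⟩
  intro A B hA hB S hS
  rcases le_total A B with h | h
  · exact key A B hA h S hS
  · have h1 : (S.image Prod.swap).card = S.card :=
      Finset.card_image_of_injective _ Prod.swap_injective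
    rw [← h1, mul_comm A B]
    apply key B A hB h
    rintro ⟨p, q⟩ ht'
    rw [mem_image] at ht'
    obtain ⟨⟨q', p'⟩, hs, he⟩ := ht'
    simp only [Prod.swap_prod_mk, Prod.mk.injEq] at he
    obtain ⟨rfl, rfl⟩ := he
    obtain ⟨a1, a2, a3, a4, a5⟩ := hS _ hs
    exact ⟨a2, a1, inv_symm a3, a5, a4⟩

/-- The exponent: the infimum of all `t` such that `t L + K` is in the cone generated by the
classes `(2,-1)` and `(-1,2)`, where `L = (l 0, l 1)` and `K = (-2,-2)`. -/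
noncomputable def fuj (l : Fin 2 → ℝ) : ℝ :=
  sInf {t : ℝ | ∃ c : Fin 2 → ℝ, (∀ i, 0 ≤ c i) ∧ t * l 0 - 2 = 2 * c 0 - c 1 ∧
    t * l 1 - 2 = 2 * c 1 - c 0}

theorem fuj_eq (l : Fin 2 → ℝ) (h0 : 0 < 2 * l 0 + l 1) (h1 : 0 < l 0 + 2 * l 1) :
    fuj l = max (6 / (2 * l 0 + l 1)) (6 / (l 0 + 2 * l 1)) := by
  unfold fuj
  have : {t : ℝ | ∃ c : Fin 2 → ℝ, (∀ i, 0 ≤ c i) ∧ t * l 0 - 2 = 2 * c 0 - c 1 ∧
      t * l 1 - 2 = 2 * c 1 - c 0} =
      Set.Ici (max (6 / (2 * l 0 + l 1)) (6 / (l 0 + 2 * l 1))) := by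
    ext t
    rw [Set.mem_ofPred_eq, Set.mem_Ici, max_le_iff, div_le_iff₀ h0, div_le_iff₀ h1]
    constructor
    · rintro ⟨c, hc, e0, e1⟩
      have c0 := hc 0
      have c1 := hc 1
      constructor <;> nlinarith
    · rintro ⟨a0, a1⟩
      refine ⟨![(2 * (t * l 0 - 2) + (t * l 1 - 2)) / 3, ((t * l 0 - 2) + 2 * (t * l 1 - 2)) / 3],
        ?_, ?_, ?_⟩
      · intro i
        fin_cases i
        · show 0 ≤ (2 * (t * l 0 - 2) + (t * l 1 - 2)) / 3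
          linarith
        · show 0 ≤ ((t * l 0 - 2) + 2 * (t * l 1 - 2)) / 3
          linarith
      · simp only [Matrix.cons_val]
        ring
      · simp only [Matrix.cons_val]
        ring
  rw [this]
  exact csInf_Ici

/-- Comparison of the heights. -/
theorem compare (x y l0 l1 t T c0 c1 : ℝ) (hx : 1 ≤ x) (hy : 1 ≤ y) (hyx : y ≤ 2 * x ^ 2)
    (hxy : x ≤ 2 * y ^ 2) (ht : 0 ≤ t) (hc0 : 0 ≤ c0) (hc1 : 0 ≤ c1)
    (e0 : t * l0 - 2 = 2 * c0 - c1) (e1 : t * l1 - 2 = 2 * c1 - c0) (hT0 : 0 < T)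
    (hT : x ^ l0 * y ^ l1 ≤ T) : x ^ 2 * y ^ 2 ≤ 2 ^ (c0 + c1) * T ^ t := by
  have x0 : 0 < x := by linarith
  have y0 : 0 < y := by linarith
  rw [← Real.log_le_log_iff (by positivity) (by positivity)]
  rw [Real.log_mul (by positivity) (by positivity), Real.log_mul (by positivity) (by positivity),
    Real.log_rpow (by norm_num), Real.log_rpow hT0, Real.log_pow, Real.log_pow]
  have h1 : Real.log y ≤ Real.log 2 + 2 * Real.log x := by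
    have := Real.log_le_log y0 hyx
    rw [Real.log_mul (by norm_num) (by positivity), Real.log_pow] at this
    exact_mod_cast this
  have h2 : Real.log x ≤ Real.log 2 + 2 * Real.log y := by
    have := Real.log_le_log x0 hxy
    rw [Real.log_mul (by norm_num) (by positivity), Real.log_pow] at this
    exact_mod_cast this
  have h3 : l0 * Real.log x + l1 * Real.log y ≤ Real.log T := by
    have := Real.log_le_log (by positivity) hT
    rwa [Real.log_mul (by positivity) (by positivity), Real.log_rpow x0, Real.log_rpow y0] at this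
  have h4 := mul_le_mul_of_nonneg_left h3 ht
  have h5 := mul_le_mul_of_nonneg_left h1 hc0
  have h6 := mul_le_mul_of_nonneg_left h2 hc1
  have e2 : t * (l0 * Real.log x + l1 * Real.log y) =
      (2 + 2 * c0 - c1) * Real.log x + (2 + 2 * c1 - c0) * Real.log y := by
    linear_combination Real.log x * e0 + Real.log y * e1
  rw [e2] at h4
  push_cast
  nlinarith

/-- The upper bound for all line bundles. -/
theorem upper (l : Fin 2 → ℝ) (h0 : 0 < 2 * l 0 + l 1) (h1 : 0 < l 0 + 2 * l 1) (ε : ℝ)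
    (hε : 0 < ε) :
    ∃ C : ℝ, ∀ T : ℝ, 1 ≤ T →
      {t : (Fin 6 → ℤ) × (Fin 6 → ℤ) | Rep t.1 ∧ Rep t.2 ∧ Inv t.1 t.2 ∧
        (ht t.1 : ℝ) ^ l 0 * (ht t.2 : ℝ) ^ l 1 ≤ T}.Finite ∧
      ({t : (Fin 6 → ℤ) × (Fin 6 → ℤ) | Rep t.1 ∧ Rep t.2 ∧ Inv t.1 t.2 ∧
        (ht t.1 : ℝ) ^ l 0 * (ht t.2 : ℝ) ^ l 1 ≤ T}.ncard : ℝ) ≤ C * T ^ (fuj l + ε) := by
  classical
  have hfuj := fuj_eq l h0 h1
  set a := fuj l with ha
  have ha0 : 0 ≤ (2 * (a * l 0 - 2) + (a * l 1 - 2)) / 3 := by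
    have e : 6 / (2 * l 0 + l 1) ≤ a := by rw [hfuj]; exact le_max_left _ _
    rw [div_le_iff₀ h0] at e
    linarith
  have ha1 : 0 ≤ ((a * l 0 - 2) + 2 * (a * l 1 - 2)) / 3 := by
    have e : 6 / (l 0 + 2 * l 1) ≤ a := by rw [hfuj]; exact le_max_right _ _
    rw [div_le_iff₀ h1] at e
    linarith
  have hapos : 0 < a := by
    have e : 6 / (2 * l 0 + l 1) ≤ a := by rw [hfuj]; exact le_max_left _ _
    have : 0 < 6 / (2 * l 0 + l 1) := by positivity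
    linarith
  set c0 := (2 * (a * l 0 - 2) + (a * l 1 - 2)) / 3 with hc0
  set c1 := ((a * l 0 - 2) + 2 * (a * l 1 - 2)) / 3 with hc1
  set δ := ε / (2 * a) with hδ
  have hδ0 : 0 < δ := by positivity
  obtain ⟨C₁, hC₁, hbox⟩ := box δ hδ0
  obtain ⟨C₂, hC₂, hlog⟩ := Pool.Agent.W978.QM.log_bound δ hδ0
  set K : ℝ := 2 ^ (c0 + c1) with hK
  have hK1 : 1 ≤ K := Real.one_le_rpow (by norm_num) (by linarith)
  have hK0 : 0 < K := by linarith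
  refine ⟨(C₂ * (2 * K) ^ δ) * (C₁ * (4 * K) * (2 * K) ^ δ), ?_⟩
  intro T hT
  have hT0 : 0 < T := by linarith
  have hTa : (1 : ℝ) ≤ T ^ a := Real.one_le_rpow hT hapos.le
  have hTa0 : (0 : ℝ) < T ^ a := by linarith
  have hKT : 1 ≤ K * T ^ a := by nlinarith
  set X0 := ⌊K * T ^ a⌋₊ with hX0
  have hX01 : 1 ≤ X0 := by
    rw [hX0, Nat.one_le_floor_iff]
    exact hKT
  have hcomp : ∀ q p : Fin 6 → ℤ, Rep q → Rep p → Inv q p →
      (ht q : ℝ) ^ l 0 * (ht p : ℝ) ^ l 1 ≤ T → (ht q : ℝ) ^ 2 * (ht p : ℝ) ^ 2 ≤ K * T ^ a := by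
    intro q p hq hp hI h
    have n0 : (1 : ℝ) ≤ ht q := by exact_mod_cast ht_pos (prim_ne (rep_prim hq))
    have n1 : (1 : ℝ) ≤ ht p := by exact_mod_cast ht_pos (prim_ne (rep_prim hp))
    exact compare (ht q) (ht p) (l 0) (l 1) a T c0 c1 n0 n1
      (by exact_mod_cast size1 (rep_prim hp) hI)
      (by exact_mod_cast size1 (rep_prim hq) (inv_symm hI)) hapos.le ha0 ha1
      (by rw [hc0, hc1]; ring) (by rw [hc0, hc1]; ring) hT0 h
  have hle : ∀ x y : ℕ, 1 ≤ x → 1 ≤ y → (x : ℝ) ^ 2 * (y : ℝ) ^ 2 ≤ K * T ^ a →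
      x ≤ X0 ∧ y ≤ X0 := by
    intro x y hx hy h
    have hx' : (1 : ℝ) ≤ x := by exact_mod_cast hx
    have hy' : (1 : ℝ) ≤ y := by exact_mod_cast hy
    have e1 : (x : ℝ) * 1 ≤ x ^ 2 * y ^ 2 := by
      apply mul_le_mul
      · nlinarith
      · nlinarith
      · norm_num
      · positivity
    have e2 : 1 * (y : ℝ) ≤ x ^ 2 * y ^ 2 := by
      apply mul_le_mul
      · nlinarith
      · nlinarith
      · linarith
      · positivity
    constructor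
    · apply Nat.le_floor
      linarith
    · apply Nat.le_floor
      linarith
  set P : Finset ((Fin 6 → ℤ) × (Fin 6 → ℤ)) := ((bx 6 X0) ×ˢ (bx 6 X0)).filter
    fun t => Rep t.1 ∧ Rep t.2 ∧ Inv t.1 t.2 ∧
      (ht t.1 : ℝ) ^ l 0 * (ht t.2 : ℝ) ^ l 1 ≤ T with hP
  have hset : {t : (Fin 6 → ℤ) × (Fin 6 → ℤ) | Rep t.1 ∧ Rep t.2 ∧ Inv t.1 t.2 ∧
      (ht t.1 : ℝ) ^ l 0 * (ht t.2 : ℝ) ^ l 1 ≤ T} = ↑P := by
    ext t
    rw [hP, mem_coe, mem_filter, mem_product, mem_bx, mem_bx]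
    constructor
    · rintro ⟨h1, h2, h3, h5⟩
      exact ⟨hle _ _ (ht_pos (prim_ne (rep_prim h1))) (ht_pos (prim_ne (rep_prim h2)))
        (hcomp _ _ h1 h2 h3 h5), h1, h2, h3, h5⟩
    · rintro ⟨-, h⟩
      exact h
  rw [hset]
  refine ⟨P.finite_toSet, ?_⟩
  rw [Set.ncard_coe_finset]
  set L := Nat.log 2 (2 * X0) with hL
  have hcov : P ⊆ (range (L + 1)).biUnion fun j => P.filter fun t => dy t.1 = j := by
    intro t ht'
    have ht'' := ht'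
    rw [hP, mem_filter, mem_product, mem_bx, mem_bx] at ht''
    obtain ⟨⟨hx, -⟩, h1, -⟩ := ht''
    rw [mem_biUnion]
    refine ⟨dy t.1, ?_, ?_⟩
    · rw [mem_range]
      apply Nat.lt_succ_of_le
      apply Nat.le_log_of_pow_le (by norm_num)
      exact ((dy_spec (ht_pos (prim_ne (rep_prim h1)))).2).trans (Nat.mul_le_mul_left _ hx)
    · rw [mem_filter]
      exact ⟨ht', rfl⟩
  have hlev : ∀ j ∈ range (L + 1), (((P.filter fun t => dy t.1 = j).card : ℕ) : ℝ) ≤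
      C₁ * (4 * (K * T ^ a)) * (2 * (K * T ^ a)) ^ δ := by
    intro j _
    set Q := P.filter fun t => dy t.1 = j with hQ
    rcases Q.eq_empty_or_nonempty with h0 | hne
    · rw [h0]
      simp only [card_empty, Nat.cast_zero]
      positivity
    obtain ⟨s, hs, hmax⟩ := Finset.exists_max_image Q (fun t => ht t.2) hne
    have hmem : ∀ t ∈ Q, Rep t.1 ∧ Rep t.2 ∧ Inv t.1 t.2 ∧
        (ht t.1 : ℝ) ^ l 0 * (ht t.2 : ℝ) ^ l 1 ≤ T ∧ dy t.1 = j := by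
      intro t ht'
      rw [hQ, mem_filter, hP, mem_filter] at ht'
      tauto
    obtain ⟨s1, s2, s3, s5, s6⟩ := hmem s hs
    have n0 : 1 ≤ ht s.1 := ht_pos (prim_ne (rep_prim s1))
    have n1 : 1 ≤ ht s.2 := ht_pos (prim_ne (rep_prim s2))
    have h1 := hbox (2 ^ j) (ht s.2) Nat.one_le_two_pow n1 Q (by
      intro t ht'
      obtain ⟨t1, t2, t3, -, t6⟩ := hmem t ht'
      have h2 := dy_spec (ht_pos (prim_ne (rep_prim t1)))
      rw [t6] at h2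
      exact ⟨t1, t2, t3, h2.1, hmax t ht'⟩)
    have h3 := (dy_spec n0).2
    rw [s6] at h3
    have h4 := hcomp _ _ s1 s2 s3 s5
    have n0' : (1 : ℝ) ≤ ht s.1 := by exact_mod_cast n0
    have n1' : (1 : ℝ) ≤ ht s.2 := by exact_mod_cast n1
    have h5 : ((2 ^ j * ht s.2 : ℕ) : ℝ) ≤ 2 * (ht s.1 * ht s.2) := by
      have : 2 ^ j * ht s.2 ≤ 2 * (ht s.1 * ht s.2) := by
        calc 2 ^ j * ht s.2 ≤ (2 * ht s.1) * ht s.2 := Nat.mul_le_mul_right _ h3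
          _ = _ := by ring
      exact_mod_cast this
    have h6 : ((ht s.1 : ℝ) * ht s.2) ^ 2 ≤ K * T ^ a := by rwa [mul_pow]
    have h7 : (1 : ℝ) ≤ (ht s.1 : ℝ) * ht s.2 := by nlinarith
    have h8 : (ht s.1 : ℝ) * ht s.2 ≤ K * T ^ a := by nlinarith
    have h9 : (0 : ℝ) < ((2 ^ j * ht s.2 : ℕ) : ℝ) := by
      have : 0 < 2 ^ j * ht s.2 := by positivity
      exact_mod_cast this
    calc (Q.card : ℝ) ≤ C₁ * ((2 ^ j * ht s.2 : ℕ) : ℝ) ^ (2 + δ) := h1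
      _ = C₁ * (((2 ^ j * ht s.2 : ℕ) : ℝ) ^ 2 * ((2 ^ j * ht s.2 : ℕ) : ℝ) ^ δ) := by
          rw [Real.rpow_add h9]
          norm_num
      _ ≤ C₁ * ((2 * (ht s.1 * ht s.2)) ^ 2 * (2 * (K * T ^ a)) ^ δ) := by
          have : ((2 ^ j * ht s.2 : ℕ) : ℝ) ≤ 2 * (K * T ^ a) := by linarith
          gcongr
      _ = C₁ * (4 * ((ht s.1 : ℝ) * ht s.2) ^ 2) * (2 * (K * T ^ a)) ^ δ := by ring
      _ ≤ C₁ * (4 * (K * T ^ a)) * (2 * (K * T ^ a)) ^ δ := by gcongr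
  have hLb : ((L : ℝ) + 1) ≤ C₂ * (2 * (K * T ^ a)) ^ δ := by
    have h2 : ((2 * X0 : ℕ) : ℝ) ≤ 2 * (K * T ^ a) := by
      push_cast
      have : (X0 : ℝ) ≤ K * T ^ a := Nat.floor_le (by positivity)
      linarith
    refine (hlog (2 * X0) (by omega)).trans ?_
    gcongr
  have hTδ : ((2 * (K * T ^ a)) ^ δ) = (2 * K) ^ δ * T ^ (ε / 2) := by
    rw [← mul_assoc, Real.mul_rpow (by positivity) (by positivity), ← Real.rpow_mul hT0.le]
    congr 2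
    rw [hδ]
    field_simp
  calc (P.card : ℝ) ≤ ∑ j ∈ range (L + 1), (((P.filter fun t => dy t.1 = j).card : ℕ) : ℝ) := by
        have h1 := (Finset.card_le_card hcov).trans Finset.card_biUnion_le
        exact_mod_cast h1
    _ ≤ ∑ j ∈ range (L + 1), C₁ * (4 * (K * T ^ a)) * (2 * (K * T ^ a)) ^ δ :=
        Finset.sum_le_sum hlev
    _ = ((L : ℝ) + 1) * (C₁ * (4 * (K * T ^ a)) * (2 * (K * T ^ a)) ^ δ) := by
        rw [Finset.sum_const, card_range, nsmul_eq_mul]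
        push_cast
        ring
    _ ≤ (C₂ * (2 * (K * T ^ a)) ^ δ) * (C₁ * (4 * (K * T ^ a)) * (2 * (K * T ^ a)) ^ δ) := by
        gcongr
    _ = (C₂ * (2 * K) ^ δ) * (C₁ * (4 * K) * (2 * K) ^ δ) * (T ^ a * (T ^ (ε / 2) * T ^ (ε / 2))) := by
        rw [hTδ]
        ring
    _ = (C₂ * (2 * K) ^ δ) * (C₁ * (4 * K) * (2 * K) ^ δ) * T ^ (a + ε) := by
        rw [← Real.rpow_add hT0, ← Real.rpow_add hT0]
        congr 3
        ring

end Pool.Agent.H26CC
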